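import Pool.Agent.Helper15.FC.St1

set_option autoImplicit false

/-!
# FC module HC: the number of relation preserving matrices is at most the rank
-/

namespace Pool.Agent.Helper33.FC

open Pool.Agent.Helper15.FC Polynomial

noncomputable section

/-- evaluation at the variable of the power series ring is the coercion -/
private theorem aeval_X_coe {k : Type} [Field k] (D : k[X]) :
    Polynomial.aeval (PowerSeries.X : PowerSeries k) D = (D : PowerSeries k) := by
  have h : Polynomial.aeval (PowerSeries.X : PowerSeries k)
      = (Polynomial.coeToPowerSeries.algHom k : k[X] →ₐ[k] PowerSeries k) := by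
    apply Polynomial.algHom_ext
    rw [Polynomial.aeval_X]
    simp [Polynomial.coeToPowerSeries.algHom_apply]
  rw [h]
  simp [Polynomial.coeToPowerSeries.algHom_apply]

private theorem ev_none {k : Type} [Field k] {b : ℕ} (y : Fin b → PowerSeries k) :
    ev y (MvPolynomial.X none) = PowerSeries.X := by
  unfold ev
  rw [MvPolynomial.aeval_X]
  rfl

private theorem ev_some {k : Type} [Field k] {b : ℕ} (y : Fin b → PowerSeries k) (t : Fin b) :
    ev y (MvPolynomial.X (some t)) = y t := by
  unfold ev
  rw [MvPolynomial.aeval_X]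
  rfl

private theorem ev_pol {k : Type} [Field k] {b : ℕ} (y : Fin b → PowerSeries k) (D : k[X]) :
    ev y (Polynomial.aeval (MvPolynomial.X none : MvPolynomial (Option (Fin b)) k) D)
      = (D : PowerSeries k) := by
  rw [← Polynomial.aeval_algHom_apply, ev_none, aeval_X_coe]

private theorem ev_mon {k : Type} [Field k] {b q : ℕ} (y : Fin b → PowerSeries k)
    (e : Fin b → Fin q) :
    ev y (∏ t, (MvPolynomial.X (some t) : MvPolynomial (Option (Fin b)) k) ^ (e t : ℕ))
      = ymon y e := by
  rw [map_prod]
  unfold ymon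
  refine Finset.prod_congr rfl fun t _ => ?_
  rw [map_pow, ev_some]

theorem hHC : StHC := by
  classical
  intro k _ b q y I D C hdat S hrel hinj
  obtain ⟨hD, -, -, hrep⟩ := hdat
  by_contra hlt
  have hlt' : I.card < S.card := not_le.1 hlt
  -- the vectors of values at the basis monomials are dependent
  have hdep : ¬ LinearIndependent (PowerSeries k)
      (fun (c : S) (e : I) => ymon (cy (c : Matrix (Fin b) (Fin b) k) y) (e : Fin b → Fin q)) := by
    intro hli
    have := hli.fintype_card_le_finrank
    rw [Module.finrank_fintype_fun_eq_card, Fintype.card_coe, Fintype.card_coe] at this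
    omega
  rw [Fintype.not_linearIndependent_iff] at hdep
  obtain ⟨lam, hlam, c0, hc0⟩ := hdep
  have hlam' : ∀ e ∈ I, ∑ c : S, lam c * ymon (cy (c : Matrix (Fin b) (Fin b) k) y) e = 0 := by
    intro e he
    have := congrFun hlam ⟨e, he⟩
    simpa [Finset.sum_apply] using this
  -- Dedekind
  let f : S → (MvPolynomial (Option (Fin b)) k →* PowerSeries k) :=
    fun c => ((ev (cy (c : Matrix (Fin b) (Fin b) k) y) :
      MvPolynomial (Option (Fin b)) k →ₐ[k] PowerSeries k) :
        MvPolynomial (Option (Fin b)) k →* PowerSeries k)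
  have hf : ∀ c Φ, f c Φ = ev (cy (c : Matrix (Fin b) (Fin b) k) y) Φ := fun c Φ => rfl
  have hfinj : Function.Injective f := by
    intro c c' h
    apply Subtype.ext
    apply hinj c.1 c.2 c'.1 c'.2
    funext t
    have h1 := congrArg (fun g => g (MvPolynomial.X (some t))) h
    simp only [hf, ev_some] at h1
    exact h1
  have hli := (linearIndependent_monoidHom (MvPolynomial (Option (Fin b)) k)
    (PowerSeries k)).comp f hfinj
  rw [Fintype.linearIndependent_iff] at hli
  apply hc0
  refine hli lam ?_ c0
  funext Φ
  rw [Finset.sum_apply]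
  change ∑ c : S, lam c * ev (cy (c : Matrix (Fin b) (Fin b) k) y) Φ = 0
  obtain ⟨G, -, hG⟩ := hrep Φ.totalDegree (ev y Φ)
    ⟨Φ, (MvPolynomial.mem_restrictTotalDegree _ _ _).2 le_rfl, rfl⟩
  -- the relation
  have hz : ∀ c ∈ S, (D : PowerSeries k) * ev (cy c y) Φ
      = ∑ e ∈ I, (G e : PowerSeries k) * ymon (cy c y) e := by
    intro c hc
    have h1 : ev y (Polynomial.aeval (MvPolynomial.X none : MvPolynomial (Option (Fin b)) k) D * Φ
        - ∑ e ∈ I, Polynomial.aeval (MvPolynomial.X none : MvPolynomial (Option (Fin b)) k) (G e)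
          * ∏ t, (MvPolynomial.X (some t) : MvPolynomial (Option (Fin b)) k) ^ (e t : ℕ)) = 0 := by
      rw [map_sub, map_mul, map_sum, ev_pol, hG, sub_eq_zero]
      refine Finset.sum_congr rfl fun e _ => ?_
      rw [map_mul, ev_pol, ev_mon]
    have h2 := hrel c hc _ h1
    rw [map_sub, map_mul, map_sum, ev_pol, sub_eq_zero] at h2
    rw [h2]
    refine Finset.sum_congr rfl fun e _ => ?_
    rw [map_mul, ev_pol, ev_mon]
  have hD' : (D : PowerSeries k) ≠ 0 := by
    intro h
    apply hD
    exact_mod_cast h
  apply (mul_eq_zero.1 ?_).resolve_left hD'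
  rw [Finset.mul_sum]
  calc ∑ c : S, (D : PowerSeries k) * (lam c * ev (cy (c : Matrix (Fin b) (Fin b) k) y) Φ)
      = ∑ c : S, ∑ e ∈ I, (G e : PowerSeries k)
          * (lam c * ymon (cy (c : Matrix (Fin b) (Fin b) k) y) e) := by
        refine Finset.sum_congr rfl fun c _ => ?_
        have h3 := hz c.1 c.2
        calc (D : PowerSeries k) * (lam c * ev (cy (c : Matrix (Fin b) (Fin b) k) y) Φ)
            = lam c * ((D : PowerSeries k) * ev (cy (c : Matrix (Fin b) (Fin b) k) y) Φ) := by
              ring
          _ = _ := by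
            rw [h3, Finset.mul_sum]
            refine Finset.sum_congr rfl fun e _ => ?_
            ring
    _ = ∑ e ∈ I, (G e : PowerSeries k)
          * ∑ c : S, lam c * ymon (cy (c : Matrix (Fin b) (Fin b) k) y) e := by
        rw [Finset.sum_comm]
        refine Finset.sum_congr rfl fun e _ => ?_
        rw [Finset.mul_sum]
    _ = 0 := by
        refine Finset.sum_eq_zero fun e he => ?_
        rw [hlam' e he, mul_zero]

end

end Pool.Agent.Helper33.FC
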